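import Pool.Agent.V1132.CN.NegK
import Pool.Agent.V1132.CN.Main
import Pool.Agent.TH57.Thr.KGr

set_option autoImplicit false

/-! Let `G` be a torsion-free group. Every class of `Wh(G)`, of the reduced projective class group of
`ℤG` and of the negative `K`-groups `K_{-m}(ℤG)` has representatives of norm arbitrarily close to
`3 / √2` on `ℓ²(G)`, and for every class which is not zero (in negative degrees: not a sum of classes
from cyclic subgroups) the least norm is exactly `3 / √2`. -/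

namespace Pool.Agent.Results.MP_16fe43_al.CriticalNorms

open Pool.Agent.Y75.NK TH6.PF TH6.FB TH57.Thr Pool.Agent.V1132.CN

/-! ### The reduced projective class group -/

/-- `P` has a presentation matrix of operator norm at most `c`. -/
def HasPres (G : Type) [Group G] (P : Type) [AddCommGroup P] [Module (MonoidAlgebra ℤ G) P]
    (c : ℝ) : Prop :=
  ∃ (m n : ℕ) (A : Matrix (Fin m) (Fin n) (MonoidAlgebra ℤ G)),
    NormLE A c ∧ Nonempty (P ≃ₗ[MonoidAlgebra ℤ G] Coker A)

/-- The least norm of a presentation matrix of a module stably isomorphic to `P`. -/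
noncomputable def classNorm (G : Type) [Group G] (P : Type) [AddCommGroup P]
    [Module (MonoidAlgebra ℤ G) P] : ℝ :=
  sInf {c : ℝ | 0 ≤ c ∧ ∃ (m n : ℕ) (A : Matrix (Fin m) (Fin n) (MonoidAlgebra ℤ G)),
    NormLE A c ∧ StablyIso (MonoidAlgebra ℤ G) P (Coker A)}

/-! ### Negative `K`-groups -/

/-- Bass's group `K_{-(m+1)}(ℤ[G])`. -/
abbrev NK (m : ℕ) (G : GrpCat.{0}) : Type := (Kneg (m + 1)).obj ((gr ℤ).obj G)

/-- `x` is the class of an idempotent matrix `e` over `ℤ[ℤᵐ⁺¹ × G]` such that the projective module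
of `e` has a presentation matrix which is controlled over `G` by an integral matrix of norm at most
`c` on `ℓ²(G)`. -/
def HasRep (m : ℕ) (G : GrpCat.{0}) (x : NK m G) (c : ℝ) : Prop :=
  ∃ e : Idem (MonoidAlgebra ℤ ((EF (m + 1)).obj G)),
    kclass ℤ (m + 1) G e = x ∧ CtrlLE (prj (m + 1) G) e c

/-- The least norm of the control matrices over `G` of the representatives of `x`. -/
noncomputable def negNorm (m : ℕ) (G : GrpCat.{0}) (x : NK m G) : ℝ :=
  sInf {c : ℝ | 0 ≤ c ∧ HasRep m G x c}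

/-! ### The conclusions -/

/-- `Wh(G) = 0`. -/
def WhZero (G : Type) [Group G] : Prop :=
  ∀ (n : ℕ) (A : (Matrix (Fin n) (Fin n) (MonoidAlgebra ℤ G))ˣ), Trivial A

/-- The reduced projective class group of `ℤG` vanishes. -/
def ProjZero (G : Type) [Group G] : Prop :=
  ∀ (P : Type) [AddCommGroup P] [Module (MonoidAlgebra ℤ G) P],
    Module.Finite (MonoidAlgebra ℤ G) P → Module.Projective (MonoidAlgebra ℤ G) P →
    StablyFree (MonoidAlgebra ℤ G) P

/-- `K_{-m}(ℤG) = 0` for all `m ≥ 1`. -/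
def NegZero (G : GrpCat.{0}) : Prop := ∀ m : ℕ, Subsingleton (NK m G)

/-- The invertible matrices over `ℤG` of operator norm at most `c` are trivial in `Wh(G)`. -/
def WhSmall (G : Type) [Group G] (c : ℝ) : Prop :=
  ∀ (n : ℕ) (A : (Matrix (Fin n) (Fin n) (MonoidAlgebra ℤ G))ˣ),
    NormLE (A : Matrix (Fin n) (Fin n) (MonoidAlgebra ℤ G)) c → Trivial A

/-- The projective `ℤG`-modules with a presentation matrix of operator norm at most `c` are stably
free. -/
def ProjSmall (G : Type) [Group G] (c : ℝ) : Prop :=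
  ∀ (m n : ℕ) (A : Matrix (Fin m) (Fin n) (MonoidAlgebra ℤ G)), NormLE A c →
    Module.Projective (MonoidAlgebra ℤ G) (Coker A) → StablyFree (MonoidAlgebra ℤ G) (Coker A)

/-- The classes in the negative `K`-groups which are controlled over `G` by matrices of norm at most
`c` vanish. -/
def NegSmall (G : GrpCat.{0}) (c : ℝ) : Prop := ∀ (m : ℕ) (x : NK m G), HasRep m G x c → x = 0

/-! ### Proofs -/

theorem one_lt_thr : (1 : ℝ) < 3 / Real.sqrt 2 := by
  by_contra h
  push Not at h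
  have h2 : (3 / Real.sqrt 2) ^ 2 ≤ 1 ^ 2 := pow_le_pow_left₀ thr_pos.le h 2
  rw [thr_sq] at h2
  norm_num at h2

theorem norm_mono {G : Type} [Group G] {κ μ : Type} [Fintype κ] [Fintype μ]
    (A : Matrix κ μ (MonoidAlgebra ℤ G)) (c d : ℝ) (h0 : 0 ≤ c) (h : c ≤ d)
    (hA : NormLE A c) : NormLE A d := fun x =>
  (hA x).trans (mul_le_mul_of_nonneg_right (pow_le_pow_left₀ h0 h 2) (by
      unfold normSq
      exact Finset.sum_nonneg fun _ _ => Finset.sum_nonneg fun _ _ => sq_nonneg _))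

theorem below₀ (G : Type) [Group G] (htf : ∀ g : G, ∀ k : ℕ, 0 < k → g ^ k = 1 → g = 1)
    (P : Type) [AddCommGroup P] [Module (MonoidAlgebra ℤ G) P]
    (hP : Module.Projective (MonoidAlgebra ℤ G) P)
    (m n : ℕ) (A : Matrix (Fin m) (Fin n) (MonoidAlgebra ℤ G))
    (e : StablyIso (MonoidAlgebra ℤ G) P (Coker A))
    (c : ℝ) (hc0 : 0 ≤ c) (hc : c < 3 / Real.sqrt 2) (hA : NormLE A c) :
    StablyFree (MonoidAlgebra ℤ G) P := by
  have hQ := e.projective hP
  obtain ⟨Y, hY⟩ := regular_of_projective A (Coker A) hQ (LinearEquiv.refl _ _)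
  exact e.stablyFree (free_of_SFC A (SFC_small htf A Y hY (max c 1)
    (lt_max_of_lt_right one_pos) (sq_lt_of_lt (le_max_of_le_left hc0) (max_lt hc one_lt_thr))
    (norm_mono A c _ hc0 (le_max_left _ _) hA)) (Coker A) (LinearEquiv.refl _ _))

theorem above₀ (G : Type) [Group G] (P : Type) [AddCommGroup P] [Module (MonoidAlgebra ℤ G) P]
    (hfin : Module.Finite (MonoidAlgebra ℤ G) P) (hproj : Module.Projective (MonoidAlgebra ℤ G) P)
    (c : ℝ) (hc : 3 / Real.sqrt 2 < c) : HasPres G P c :=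
  pres_red P (Module.finitePresentation_of_projective _ _) c (sq_gt_of_gt hc).2

theorem dich₀ (G : Type) [Group G] (htf : ∀ g : G, ∀ k : ℕ, 0 < k → g ^ k = 1 → g = 1)
    (P : Type) [AddCommGroup P] [Module (MonoidAlgebra ℤ G) P]
    (hfin : Module.Finite (MonoidAlgebra ℤ G) P)
    (hproj : Module.Projective (MonoidAlgebra ℤ G) P) :
    (StablyFree (MonoidAlgebra ℤ G) P ∧ classNorm G P = 0) ∨
      (¬ StablyFree (MonoidAlgebra ℤ G) P ∧ classNorm G P = 3 / Real.sqrt 2) := by
  by_cases h : StablyFree (MonoidAlgebra ℤ G) P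
  · refine Or.inl ⟨h, sInf_zero (fun c hc => hc.1) ⟨le_rfl, 0, 0, 0, ?_, ?_⟩⟩
    · intro x
      simp [normSq]
    · obtain ⟨n, m, ⟨e⟩⟩ := h
      have : Subsingleton (Coker (0 : Matrix (Fin 0) (Fin 0) (MonoidAlgebra ℤ G))) :=
        Function.Surjective.subsingleton (Submodule.mkQ_surjective _)
      let f : (Fin m → MonoidAlgebra ℤ G) ≃ₗ[MonoidAlgebra ℤ G]
          (Coker (0 : Matrix (Fin 0) (Fin 0) (MonoidAlgebra ℤ G)) ×
            (Fin m → MonoidAlgebra ℤ G)) :=
        { toFun := fun x => (0, x)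
          map_add' := fun x y => Prod.ext (Subsingleton.elim _ _) rfl
          map_smul' := fun a x => Prod.ext (Subsingleton.elim _ _) rfl
          invFun := fun y => y.2
          left_inv := fun x => rfl
          right_inv := fun y => Prod.ext (Subsingleton.elim _ _) rfl }
      exact ⟨n, m, ⟨e.trans f⟩⟩
  · refine Or.inr ⟨h, sInf_thr (fun c hc => hc.1) _ (fun c hc => ?_) ?_⟩
    · obtain ⟨m, n, A, h1, ⟨h2⟩⟩ := above₀ G P hfin hproj c hc
      exact ⟨(sq_gt_of_gt hc).1.le, m, n, A, h1, stablyIso_of_equiv h2⟩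
    · rintro c ⟨h0, m, n, A, h1, h2⟩
      by_contra hlt
      exact h (below₀ G htf P hproj m n A h2 c h0 (not_le.1 hlt) h1)

theorem aboveN (m : ℕ) (G : GrpCat.{0}) (x : NK m G) (c : ℝ)
    (hc : 3 / Real.sqrt 2 < c) : HasRep m G x c := by
  obtain ⟨e, he⟩ := exists_kclass ℤ m G x
  exact ⟨e, he, ctrl_above ℤ (m + 1) G e c hc⟩

theorem hasRep_zero (m : ℕ) (G : GrpCat.{0}) : HasRep m G 0 0 := by
  refine ⟨idOne _ 0, kclass_idOne ℤ m G 0, 0, 0, _, 0, pres_self (idOne _ 0), fun x => ?_,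
    fun i => i.elim0⟩
  simp [normSq]

theorem dichN (m : ℕ) (G : GrpCat.{0}) (hG : TF G)
    (hR : ∀ C : GrpCat.{0}, IsCyclic C → TF C → Subsingleton (NK m C)) (x : NK m G) :
    (x = 0 ∧ negNorm m G x = 0) ∨ (x ≠ 0 ∧ negNorm m G x = 3 / Real.sqrt 2) := by
  by_cases hx : x = 0
  · subst hx
    exact Or.inl ⟨rfl, sInf_zero (fun c hc => hc.1) ⟨le_rfl, hasRep_zero m G⟩⟩
  · refine Or.inr ⟨hx, sInf_thr (fun c hc => hc.1) _ (fun c hc => ⟨(sq_gt_of_gt hc).1.le,
      aboveN m G x c hc⟩) ?_⟩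
    rintro c ⟨h1, e, rfl, he⟩
    by_contra hlt
    exact hx (eq_zero ℤ (m + 1) G hG hR e
      (ctrl_below (prj (m + 1) G) e c h1 (not_le.1 hlt) he))

theorem result :
    -- torsion-free groups: the least norms in the classes
    (∀ G : GrpCat.{0}, TF G →
      (∀ (n : ℕ) (A : (Matrix (Fin n) (Fin n) (MonoidAlgebra ℤ G))ˣ),
        (Trivial A ∧ crit A = 1) ∨ (¬ Trivial A ∧ crit A = 3 / Real.sqrt 2)) ∧
      (∀ (P : Type) [AddCommGroup P] [Module (MonoidAlgebra ℤ G) P],
        Module.Finite (MonoidAlgebra ℤ G) P → Module.Projective (MonoidAlgebra ℤ G) P →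
        (StablyFree (MonoidAlgebra ℤ G) P ∧ classNorm G P = 0) ∨
        (¬ StablyFree (MonoidAlgebra ℤ G) P ∧ classNorm G P = 3 / Real.sqrt 2)) ∧
      (∀ (m : ℕ) (x : NK m G), 0 ≤ negNorm m G x ∧ negNorm m G x ≤ 3 / Real.sqrt 2 ∧
        (x ∉ vcSub ℤ (m + 1) G → negNorm m G x = 3 / Real.sqrt 2))) ∧
    -- one group, torsion allowed: above `3 / √2` a bound on the norm is no restriction
    (∀ (G : GrpCat.{0}) (c : ℝ), 3 / Real.sqrt 2 < c →
      (WhSmall G c ↔ WhZero G) ∧ (ProjSmall G c ↔ ProjZero G) ∧ (NegSmall G c ↔ NegZero G)) ∧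
    -- given the case of infinite cyclic and trivial groups (Bass, Heller, Swan) in negative degrees:
    -- below `3 / √2` the conclusion holds for all torsion-free groups, and the whole question
    ((∀ C : GrpCat.{0}, IsCyclic C → TF C → NegZero C) →
      (∀ G : GrpCat.{0}, TF G → ∀ c : ℝ, 0 ≤ c → c < 3 / Real.sqrt 2 →
        WhSmall G c ∧ ProjSmall G c ∧ NegSmall G c) ∧
      ((∀ G : GrpCat.{0}, TF G → WhZero G ∧ ProjZero G ∧ NegZero G) ↔
        ∀ G : GrpCat.{0}, TF G →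
          (∀ (n : ℕ) (A : (Matrix (Fin n) (Fin n) (MonoidAlgebra ℤ G))ˣ),
            crit A ≠ 3 / Real.sqrt 2) ∧
          (∀ (P : Type) [AddCommGroup P] [Module (MonoidAlgebra ℤ G) P],
            Module.Finite (MonoidAlgebra ℤ G) P → Module.Projective (MonoidAlgebra ℤ G) P →
            classNorm G P ≠ 3 / Real.sqrt 2) ∧
          ∀ (m : ℕ) (x : NK m G), negNorm m G x ≠ 3 / Real.sqrt 2)) := by
  have key : ∀ G : GrpCat.{0}, TF G →
      ∀ (n : ℕ) (A : (Matrix (Fin n) (Fin n) (MonoidAlgebra ℤ G))ˣ),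
        (Trivial A ∧ crit A = 1) ∨ (¬ Trivial A ∧ crit A = 3 / Real.sqrt 2) := by
    intro G htf n A
    by_cases h : Trivial A
    · exact Or.inl ⟨h, crit_of_trivial A h⟩
    · exact Or.inr ⟨h, crit_of_not_trivial htf A h⟩
  refine ⟨fun G htf => ⟨key G htf, fun P _ _ hfin hproj => dich₀ G htf P hfin hproj,
    fun m x => ⟨Real.sInf_nonneg fun c hc => hc.1, sInf_le_thr (fun c hc => hc.1) _ fun c hc =>
      ⟨(sq_gt_of_gt hc).1.le, aboveN m G x c hc⟩, fun hx => ?_⟩⟩, fun G c hc => ⟨⟨fun h n A => ?_,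
    fun h n A _ => h n A⟩, ⟨fun h P _ _ hfin hproj => ?_, fun h m n A _ hproj =>
    h (Coker A) inferInstance hproj⟩, ⟨fun h m => ⟨fun x y => ?_⟩, fun h m x _ => (h m).elim x 0⟩⟩,
    fun hC => ⟨fun G htf c h0 hc => ⟨fun n A hA => ?_, fun m n A hA hproj => ?_,
      fun m x hx => ?_⟩, ?_⟩⟩
  · refine sInf_thr (fun c hc => hc.1) _ (fun c hc => ⟨(sq_gt_of_gt hc).1.le,
      aboveN m G x c hc⟩) ?_
    rintro c ⟨h1, e, rfl, he⟩
    by_contra hlt
    exact hx (mem_vcSub ℤ (m + 1) G e (ctrl_below (prj (m + 1) G) e c h1 (not_le.1 hlt) he))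
  · obtain ⟨h1, h2⟩ := lt_three_sqrt hc
    obtain ⟨m, B, h3, h4⟩ := (mem_of_gt A c h1 h2).2
    rw [trivial_iff, TT_SC (TU G) A B (SC_of_fin A B h3), ← trivial_iff]
    exact h _ B h4
  · obtain ⟨m, n, A, h1, ⟨h2⟩⟩ := above₀ G P hfin hproj c hc
    exact (stablyIso_of_equiv h2).stablyFree (h m n A h1 (Module.Projective.of_equiv h2))
  · rw [h m x (aboveN m G x c hc), h m y (aboveN m G y c hc)]
  · rw [trivial_iff]
    exact TT_small htf A (max c 1) (lt_max_of_lt_right one_pos)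
      (sq_lt_of_lt (le_max_of_le_left h0) (max_lt hc one_lt_thr))
      (norm_mono _ c _ h0 (le_max_left _ _) hA)
  · exact below₀ G htf (Coker A) hproj m n A (stablyIso_of_equiv (LinearEquiv.refl _ _)) c h0 hc hA
  · obtain ⟨e, rfl, he⟩ := hx
    exact eq_zero ℤ (m + 1) G htf (fun C h1 h2 => hC C h1 h2 m) e
      (ctrl_below (prj (m + 1) G) e c h0 hc he)
  · constructor
    · intro h G htf
      obtain ⟨h1, h2, h3⟩ := h G htf
      refine ⟨fun n A => ?_, fun P _ _ hfin hproj => ?_, fun m x => ?_⟩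
      · rw [crit_of_trivial A (h1 n A)]
        exact one_lt_thr.ne
      · rcases dich₀ G htf P hfin hproj with h4 | h4
        · rw [h4.2]; exact thr_pos.ne
        · exact absurd (h2 P hfin hproj) h4.1
      · rcases dichN m G htf (fun C h1 h2 => hC C h1 h2 m) x with h4 | h4
        · rw [h4.2]; exact thr_pos.ne
        · exact absurd ((h3 m).elim x 0) h4.1
    · intro h G htf
      obtain ⟨h1, h2, h3⟩ := h G htf
      refine ⟨fun n A => ?_, fun P _ _ hfin hproj => ?_, fun m => ⟨fun x y => ?_⟩⟩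
      · rcases key G htf n A with h4 | h4
        · exact h4.1
        · exact absurd h4.2 (h1 n A)
      · rcases dich₀ G htf P hfin hproj with h4 | h4
        · exact h4.1
        · exact absurd h4.2 (h2 P hfin hproj)
      · have h5 : ∀ z : NK m G, z = 0 := by
          intro z
          rcases dichN m G htf (fun C h1 h2 => hC C h1 h2 m) z with h4 | h4
          · exact h4.1
          · exact absurd h4.2 (h3 m z)
        rw [h5 x, h5 y]

end Pool.Agent.Results.MP_16fe43_al.CriticalNorms
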