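import Pool.Agent.V11187.DG.Loc

set_option autoImplicit false

/-!
# The Chern character of `K₁(B[G])` for groups detected by `π / [R, R]`, `π` acting on a tree

Let `G` be a torsion-free group. If `Wh(G) = 0`, then for every invertible matrix `u` over `ℤ[G]`
there is `γ ∈ G` such that all cycles `(Ω, δ, T)` in the sense of Connes of odd dimension take the
same value on `u` and on `γ`. We prove this for a class of groups, with `ℤ` replaced by any field of
characteristic zero and without conditions on the values of the cycle on the tuples of group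
elements with product `≠ 1`; and for arbitrary coefficient rings `B` we prove that the value on `u` is
the contribution of the tuples with product `1`.

* `Fn G g`: an integer valued function on `G` is additive on the centraliser of `g` and does not
vanish at `g`.
* `TreeFn π R`: `π` acts by automorphisms on a tree, the elements of `R` which fix a vertex have
finite order, and the elements which fix a vertex and have infinite order modulo `R` satisfy `Fn` in
`π / R`. It holds for all `R` if the stabilizers are torsion groups.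
* `DetF G h`: every finitely generated subgroup of `G` containing `h` has a homomorphism to a group
`π / [R, R]` with `TreeFn π R` which maps `h` to an element of infinite order. If all elements `h ≠ 1`
are detected in this way the group is torsion-free.

Let `word δ ρ n u v` be the matrix over `Ω[G]` whose coefficient at `h` is the sum of the terms of
`v δu (δv δu) ^ n` with product `h`; `compT T (word δ ρ n u v) g` is the component at the conjugacy
class of `g` of the value `onM δ T ρ n u v = T (v δu (δv δu) ^ n)`, `v = u⁻¹`.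

Outline of the proof. For (1) let `θ = v δu` over `Ω[G]`. The function `l` defines a form `P` on
`Ω[G]` with `P(a, b c) = P(c a, b) + P(a b, c)`, `P(1, a) = l(g) T_g(a)` and
`P(δa, b) + P(a, δb) = 0` for `a` of even degree. Then `P(1, θ ^ (2 n + 1)) = (2 n + 1) P(θ ^ (2 n), θ)`
and `P(θ ^ (2 n), v δu) = 0`. For (3) the cycle is localised at `1`, as the cycle `Ω[G]` over `K[G]`,
and the starting result `WhiteheadTraces` is used for it: the groups have no elements conjugate to
proper powers.
-/

namespace Pool.Agent.Results.MP_16fe43_al.TreeGroupCycles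

open Pool.Agent.V11187.DG (Cyc onM onElt value word compT supp)
open Pool.Agent.V11187.DT (Fn TreeFn DetF)
open Pool.Agent.Y75.BF (InfOrd)

universe u v w x y

/-- For all coefficient rings `B`, all cycles of odd dimension over `B[G]` and all invertible matrices
over `B[G]`, the component of the value at the conjugacy class of `g` is killed by `k`. -/
def Kills (k : ℕ) (G : Type w) [Group G] (g : G) : Prop :=
  ∀ (K : Type u) [CommRing K] (B : Type y) [Ring B] (Ω : Type v) [Ring Ω] [Algebra K Ω]
    (𝒜 : ℕ → Submodule K Ω) [GradedAlgebra 𝒜] (M : Type x) [AddCommGroup M] [Module K M]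
    (δ : Ω →ₗ[K] Ω) (T : Ω →ₗ[K] M) (n : ℕ), Cyc (2 * n + 1) 𝒜 δ T →
    ∀ ρ : MonoidAlgebra B G →+* Ω, (∀ a, ρ a ∈ 𝒜 0) →
    ∀ (d : ℕ) (u v : Matrix (Fin d) (Fin d) (MonoidAlgebra B G)), u * v = 1 → v * u = 1 →
      k • compT T (word δ ρ n u v) g = 0

/-- For all coefficient rings `B`, all cycles of odd dimension over `B[G]` with values in torsion-free
groups and all invertible matrices over `B[G]`, the value is its component at `1`. -/
def OnlyOne (G : Type w) [Group G] : Prop :=
  ∀ (K : Type u) [CommRing K] (B : Type y) [Ring B] (Ω : Type v) [Ring Ω] [Algebra K Ω]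
    (𝒜 : ℕ → Submodule K Ω) [GradedAlgebra 𝒜] (M : Type x) [AddCommGroup M] [Module K M]
    (δ : Ω →ₗ[K] Ω) (T : Ω →ₗ[K] M) (n : ℕ), (∀ (k : ℤ) (z : M), k ≠ 0 → k • z = 0 → z = 0) →
    Cyc (2 * n + 1) 𝒜 δ T → ∀ ρ : MonoidAlgebra B G →+* Ω, (∀ a, ρ a ∈ 𝒜 0) →
    ∀ (d : ℕ) (u v : Matrix (Fin d) (Fin d) (MonoidAlgebra B G)), u * v = 1 → v * u = 1 →
      onM δ T ρ n u v = compT T (word δ ρ n u v) 1

/-- The values of the cycle on the tuples of elements of `supp u v` with product `1` lie in the
module generated by a finite set over a finitely generated subring of `K`. -/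
def FinType {K : Type u} [Field K] {G : Type w} [Group G] {Ω : Type v} [Ring Ω] [Algebra K Ω]
    {M : Type x} [AddCommGroup M] [Module K M] (δ : Ω →ₗ[K] Ω) (T : Ω →ₗ[K] M) (N : ℕ)
    (ρ : MonoidAlgebra K G →ₐ[K] Ω) (H : Subgroup G) : Prop :=
  ∃ (s : Finset K) (F : Finset M), ∀ (a : H) (l : List H),
    l.length = N → a * l.prod = 1 → value δ T ρ a (l.map Subtype.val) ∈
      Submodule.span (Algebra.adjoin ℤ (s : Set K)) (F : Set M)

/-- All cycles of odd dimension with the property `FinType` take the same value on `u` and `γ`. -/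
def SameValues (K : Type u) [Field K] {G : Type w} [Group G] {d : ℕ}
    (u v : Matrix (Fin d) (Fin d) (MonoidAlgebra K G)) (γ : G) : Prop :=
  ∀ (Ω : Type v) [Ring Ω] [Algebra K Ω] (𝒜 : ℕ → Submodule K Ω) [GradedAlgebra 𝒜]
    (M : Type x) [AddCommGroup M] [Module K M] (δ : Ω →ₗ[K] Ω) (T : Ω →ₗ[K] M) (n : ℕ),
    Cyc (2 * n + 1) 𝒜 δ T → ∀ ρ : MonoidAlgebra K G →ₐ[K] Ω, (∀ a, ρ a ∈ 𝒜 0) →
    FinType δ T (2 * n + 1) ρ (supp u v) →
    onM δ T (ρ : MonoidAlgebra K G →+* Ω) n u v = onElt δ T ρ n γ

/-- Every finitely generated subgroup of `G` has a homomorphism to a group `π / [R, R]`, `π` acting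
on a tree with torsion stabilizers and `R` any normal subgroup of `π`, which maps the elements of
infinite order to elements of infinite order. -/
def TorsionTrees (G : Type w) [Group G] : Prop :=
  ∀ H : Subgroup G, H.FG → ∃ (π V : Type) (_ : Group π) (_ : MulAction π V)
    (Tr : SimpleGraph V) (R : Subgroup π) (_ : R.Normal) (s : H →* π ⧸ ⁅R, R⁆), Tr.IsTree ∧
    (∀ (g : π) (u v : V), Tr.Adj u v → Tr.Adj (g • u) (g • v)) ∧
    (∀ (v : V) (x : π), x • v = v → IsOfFinOrder x) ∧ ∀ h : H, InfOrd h → InfOrd (s h)

/-- (1) If an integer valued function `l` is additive on the centraliser of `g` and `l(g) ≠ 0` then a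
positive integer kills all components at `g`. (2) If all elements `h ≠ 1` are detected then the values
with arbitrary coefficient rings are the components at `1`, and (3) for the coefficient fields of
characteristic zero they are the values on a group element. (4) The torsion-free groups with the
property `TorsionTrees` are examples. -/
theorem result :
    (∀ (G : Type w) [Group G] (g : G), Fn G g → ∃ k : ℕ, 0 < k ∧ Kills.{u, v, w, x, y} k G g) ∧
    (∀ (G : Type w) [Group G], (∀ h : G, h ≠ 1 → DetF G h) → OnlyOne.{u, v, w, x, y} G) ∧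
    (∀ (G : Type w) [Group G], (∀ h : G, h ≠ 1 → DetF G h) →
      ∀ (K : Type u) [Field K] [CharZero K] (d : ℕ)
        (u v : Matrix (Fin d) (Fin d) (MonoidAlgebra K G)), u * v = 1 → v * u = 1 →
        ∃ γ : G, SameValues.{u, v, w, x} K u v γ) ∧
    (∀ (G : Type w) [Group G], (∀ h : G, h ≠ 1 → InfOrd h) → TorsionTrees G →
      ∀ h : G, h ≠ 1 → DetF G h) := by
  refine ⟨?_, ?_, ?_, ?_⟩
  · intro G _ g hg
    obtain ⟨l, hl, hlg⟩ := hg
    refine ⟨(l g).natAbs, Int.natAbs_pos.2 hlg, ?_⟩
    intro K _ B _ Ω _ _ 𝒜 _ M _ _ δ T n hc ρ hρ d u v huv hvu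
    have h2 := Pool.Agent.V11187.DG.comp_word hc hρ g l hl u v huv hvu n
    rcases Int.natAbs_eq (l g) with h3 | h3
    · rw [h3, natCast_zsmul] at h2
      exact h2
    · rw [h3, neg_zsmul, natCast_zsmul, neg_eq_zero] at h2
      exact h2
  · intro G _ hG K _ B _ Ω _ _ 𝒜 _ M _ _ δ T n hM hc ρ hρ d u v huv hvu
    exact Pool.Agent.V11187.DG.onM_one (fun g hg => (hG g hg).loc) hM hc hρ u v huv hvu
  · intro G _ hG K _ _ d u v huv hvu
    have hFG : (supp u v).FG := by
      classical
      refine ⟨Finset.univ.biUnion fun i => Finset.univ.biUnion fun j =>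
        (u i j).coeff.support ∪ (v i j).coeff.support, ?_⟩
      unfold supp
      congr 1
      ext g
      simp [Finsupp.mem_support_iff]
    obtain ⟨γ, _, hγ⟩ := Pool.Agent.V11187.DG.onM_supp.{u, v, w, x} u v huv hvu (fun g hg =>
      (hG g.1 (fun h => hg (Subtype.ext h))).loc _ hFG g.2)
    exact ⟨γ, hγ⟩
  · intro G _ htf hG h hh H0 hH0 hh0
    obtain ⟨π, V, _, _, Tr, R, _, s, hT, hadj, htor, hs⟩ := hG H0 hH0
    refine ⟨π, inferInstance, R, inferInstance, s, ?_, hs ⟨h, hh0⟩ ?_⟩
    · refine ⟨V, inferInstance, Tr, hT, hadj, fun v x hx => ⟨fun _ hi => ?_, fun hi => ?_⟩⟩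
      · exact (Pool.Agent.V11187.BT.infOrd_iff x).mp hi (htor v x hx)
      · exact absurd ((QuotientGroup.mk' R).isOfFinOrder (htor v x hx))
          ((Pool.Agent.V11187.BT.infOrd_iff _).mp hi)
    · intro n hn h1
      exact htf h hh n hn (congrArg Subtype.val h1)

end Pool.Agent.Results.MP_16fe43_al.TreeGroupCycles
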